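import Mathlib

/-! # A group all of whose Cayley graphs contain `K_{2,κ}` (MP_a61cf6_co) -/

universe u

namespace CayInf

/-- The Cayley graph `X(G,H)` of the problem file: distinct vertices `g, g'` are adjacent iff
`g' g⁻¹ ∈ H ∪ H⁻¹`. -/
def cay (G : Type*) [Group G] (H : Set G) : SimpleGraph G where
  Adj g g' := g ≠ g' ∧ (g' * g⁻¹ ∈ H ∨ g * g'⁻¹ ∈ H)
  symm := ⟨by
    intro g g' h
    exact ⟨h.1.symm, h.2.symm⟩⟩
  loopless := ⟨by
    intro g h
    exact h.1 rfl⟩

/-- Nodes of the binary tree of height `L` (a well-ordered type): functions on initial segments. -/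
def Node (L : Type u) [LinearOrder L] : Type u := Σ x : L, (Set.Iio x → Bool)

/-- First place where two different branches differ. -/
noncomputable def fd {L : Type u} [LinearOrder L] [WellFoundedLT L] (i j : L → Bool) (h : i ≠ j) : L :=
  (wellFounded_lt (α := L)).min {x | i x ≠ j x} (Function.ne_iff.1 h)

open Classical in
/-- The structure constants. -/
noncomputable def cc {L : Type u} [LinearOrder L] [WellFoundedLT L] (i j : L → Bool) :
    Option (Node L) →₀ ZMod 2 :=
  if h : i = j then Finsupp.single none 1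
  else if i (fd i j h) = false then
    Finsupp.single (some (⟨fd i j h, fun y => i y⟩ : Node L)) 1
  else 0

/-- The bilinear map. -/
noncomputable def beta (L : Type u) [LinearOrder L] [WellFoundedLT L] :
    ((L → Bool) →₀ ZMod 2) →ₗ[ZMod 2] ((L → Bool) →₀ ZMod 2) →ₗ[ZMod 2]
      (Option (Node L) →₀ ZMod 2) :=
  Finsupp.linearCombination (ZMod 2)
    (fun i => Finsupp.linearCombination (ZMod 2) (fun j => cc i j))

/-- The central extension of `V` by `Z` with the bilinear cocycle `β`. -/
@[ext]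
structure Ext {V Z : Type u} [AddCommGroup V] [AddCommGroup Z] [Module (ZMod 2) V]
    [Module (ZMod 2) Z] (β : V →ₗ[ZMod 2] V →ₗ[ZMod 2] Z) : Type u where
  v : V
  z : Z

variable {V Z : Type u} [AddCommGroup V] [AddCommGroup Z] [Module (ZMod 2) V]
    [Module (ZMod 2) Z] (β : V →ₗ[ZMod 2] V →ₗ[ZMod 2] Z)

instance : Mul (Ext β) := ⟨fun p q => ⟨p.v + q.v, p.z + q.z + β p.v q.v⟩⟩
instance : One (Ext β) := ⟨⟨0, 0⟩⟩
instance : Inv (Ext β) := ⟨fun p => ⟨-p.v, -p.z + β p.v p.v⟩⟩

@[simp] theorem mul_v (p q : Ext β) : (p * q).v = p.v + q.v := rfl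
@[simp] theorem mul_z (p q : Ext β) : (p * q).z = p.z + q.z + β p.v q.v := rfl
@[simp] theorem one_v : (1 : Ext β).v = 0 := rfl
@[simp] theorem one_z : (1 : Ext β).z = 0 := rfl
@[simp] theorem inv_v (p : Ext β) : (p⁻¹).v = -p.v := rfl
@[simp] theorem inv_z (p : Ext β) : (p⁻¹).z = -p.z + β p.v p.v := rfl

instance : Group (Ext β) :=
  Group.ofLeftAxioms
    (by
      intro p q r
      ext
      · simp [add_assoc]
      · simp only [mul_z, mul_v, map_add, LinearMap.add_apply]; abel)
    (by intro p; ext <;> simp)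
    (by intro p; ext <;> simp)

end CayInf
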