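import Pool.Agent.Helper579.CayInf.Defs

/-! # A group all of whose Cayley graphs contain `K_{2,κ}` (MP_a61cf6_co) -/

universe u

namespace CayInf



theorem fd_ne {L : Type u} [LinearOrder L] [WellFoundedLT L] (i j : L → Bool) (h : i ≠ j) :
    i (fd i j h) ≠ j (fd i j h) :=
  (wellFounded_lt (α := L)).min_mem {x | i x ≠ j x} (Function.ne_iff.1 h)

theorem fd_lt {L : Type u} [LinearOrder L] [WellFoundedLT L] (i j : L → Bool) (h : i ≠ j)
    (x : L) (hx : x < fd i j h) : i x = j x := by
  by_contra hne
  exact (wellFounded_lt (α := L)).not_lt_min {x | i x ≠ j x} hne hx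

theorem fd_eq {L : Type u} [LinearOrder L] [WellFoundedLT L] (i j : L → Bool) (h : i ≠ j)
    (x : L) (hx : i x ≠ j x) (hlt : ∀ y < x, i y = j y) : fd i j h = x := by
  rcases lt_trichotomy (fd i j h) x with h1 | h1 | h1
  · exact absurd (hlt _ h1) (fd_ne i j h)
  · exact h1
  · exact absurd (fd_lt i j h x h1) hx

theorem fd_symm {L : Type u} [LinearOrder L] [WellFoundedLT L] (i j : L → Bool) (h : i ≠ j) :
    fd j i h.symm = fd i j h :=
  fd_eq j i h.symm _ (fd_ne i j h).symm (fun y hy => (fd_lt i j h y hy).symm)

open Classical in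
/-- auxiliary: read a node as a partial function -/
noncomputable def nodeExt {L : Type u} [LinearOrder L] (p : Node L) (y : L) : Option Bool :=
  if h : y < p.1 then some (p.2 ⟨y, h⟩) else none

theorem node_eq {L : Type u} [LinearOrder L] (a n : L) (k i : L → Bool)
    (h : (⟨a, fun y => k y⟩ : Node L) = ⟨n, fun y => i y⟩) : a = n ∧ ∀ y < n, k y = i y := by
  have h1 : a = n := congrArg Sigma.fst h
  refine ⟨h1, ?_⟩
  intro y hy
  have h2 := congrFun (congrArg nodeExt h) y
  subst h1
  simpa [nodeExt, hy] using h2

theorem fd_gt {L : Type u} [LinearOrder L] [WellFoundedLT L] (i j : L → Bool) (h : i ≠ j)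
    (n : L) (hn : ∀ y ≤ n, i y = j y) : n < fd i j h := by
  by_contra hc
  exact fd_ne i j h (hn _ (not_lt.1 hc))

theorem beta_coord (L : Type u) [LinearOrder L] [WellFoundedLT L] (v : (L → Bool) →₀ ZMod 2)
    (q : Option (Node L)) :
    beta L v v q = ∑ i ∈ v.support, ∑ j ∈ v.support, cc i j q := by
  have hone : ∀ i ∈ v.support, v i = 1 := by
    intro i hi
    have h0 : v i ≠ 0 := Finsupp.mem_support_iff.1 hi
    have : ∀ a : ZMod 2, a ≠ 0 → a = 1 := by decide
    exact this _ h0
  unfold beta
  rw [Finsupp.linearCombination_apply, Finsupp.sum, LinearMap.sum_apply, Finsupp.finsetSum_apply]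
  refine Finset.sum_congr rfl (fun i hi => ?_)
  rw [LinearMap.smul_apply, hone i hi, one_smul, Finsupp.linearCombination_apply, Finsupp.sum,
    Finsupp.finsetSum_apply]
  refine Finset.sum_congr rfl (fun j hj => ?_)
  rw [hone j hj, one_smul]

theorem cc_key {L : Type u} [LinearOrder L] [WellFoundedLT L] (S : Finset (L → Bool))
    (i j : L → Bool) (hij : i ≠ j) (hi : i ∈ S) (hj : j ∈ S)
    (hmax : ∀ k ∈ S, ∀ l ∈ S, ∀ h : k ≠ l, fd k l h ≤ fd i j hij)
    (hfi : i (fd i j hij) = false) (k l : L → Bool) (hk : k ∈ S) (hl : l ∈ S)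
    (hne : cc k l (some (⟨fd i j hij, fun y => i y⟩ : Node L)) ≠ 0) : k = i ∧ l = j := by
  classical
  have hfj : j (fd i j hij) = true := by
    have := fd_ne i j hij
    rw [hfi] at this
    cases h : j (fd i j hij)
    · exact absurd h.symm this
    · rfl
  unfold cc at hne
  split_ifs at hne with h1 h2
  · exact absurd (by simp) hne
  · have h3 : (⟨fd k l h1, fun y => k y⟩ : Node L) = ⟨fd i j hij, fun y => i y⟩ := by
      by_contra hcon
      apply hne
      rw [Finsupp.single_apply, if_neg]
      intro h4
      exact hcon (Option.some.inj h4)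
    obtain ⟨h4, h5⟩ := node_eq _ _ _ _ h3
    have hkn : k (fd i j hij) = false := by rw [← h4]; exact h2
    have hln : l (fd i j hij) = true := by
      have := fd_ne k l h1
      rw [h4, hkn] at this
      cases h : l (fd i j hij)
      · exact absurd h.symm this
      · rfl
    have hkl : ∀ y < fd i j hij, k y = l y := by
      intro y hy
      exact fd_lt k l h1 y (by rw [h4]; exact hy)
    constructor
    · by_contra hki
      have h6 := fd_gt k i hki (fd i j hij) (by
        intro y hy
        rcases hy.lt_or_eq with h | h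
        · exact h5 y h
        · rw [h, hkn, hfi])
      exact absurd (hmax k hk i hi hki) (not_le.2 h6)
    · by_contra hlj
      have h6 := fd_gt l j hlj (fd i j hij) (by
        intro y hy
        rcases hy.lt_or_eq with h | h
        · rw [← hkl y h, h5 y h, fd_lt i j hij y h]
        · rw [h, hln, hfj])
      exact absurd (hmax l hl j hj hlj) (not_le.2 h6)
  · exact absurd (by simp) hne

theorem beta_anis_aux (L : Type u) [LinearOrder L] [WellFoundedLT L] (v : (L → Bool) →₀ ZMod 2)
    (i j : L → Bool) (hij : i ≠ j) (hi : i ∈ v.support) (hj : j ∈ v.support)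
    (hmax : ∀ k ∈ v.support, ∀ l ∈ v.support, ∀ h : k ≠ l, fd k l h ≤ fd i j hij)
    (hfi : i (fd i j hij) = false) : beta L v v ≠ 0 := by
  classical
  intro h0
  have h1 := beta_coord L v (some (⟨fd i j hij, fun y => i y⟩ : Node L))
  rw [h0] at h1
  have h2 : (∑ k ∈ v.support, ∑ l ∈ v.support,
      cc k l (some (⟨fd i j hij, fun y => i y⟩ : Node L))) = 1 := by
    rw [Finset.sum_eq_single_of_mem i hi, Finset.sum_eq_single_of_mem j hj]
    · unfold cc
      rw [dif_neg hij, if_pos hfi]
      simp
    · intro l hl hlj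
      by_contra hne
      exact hlj (cc_key v.support i j hij hi hj hmax hfi i l hi hl hne).2
    · intro k hk hki
      apply Finset.sum_eq_zero
      intro l hl
      by_contra hne
      exact hki (cc_key v.support i j hij hi hj hmax hfi k l hk hl hne).1
  rw [h2] at h1
  simp at h1

/-- The form is anisotropic. -/
theorem beta_anis (L : Type u) [LinearOrder L] [WellFoundedLT L] (v : (L → Bool) →₀ ZMod 2)
    (hv : v ≠ 0) : beta L v v ≠ 0 := by
  classical
  by_cases hex : ∃ i ∈ v.support, ∃ j ∈ v.support, i ≠ j
  · obtain ⟨i0, hi0, j0, hj0, hij0⟩ := hex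
    let f : (L → Bool) × (L → Bool) → WithBot L := fun p =>
      if h : p.1 ≠ p.2 then ((fd p.1 p.2 h : L) : WithBot L) else ⊥
    have hf : ∀ k l (h : k ≠ l), f (k, l) = ((fd k l h : L) : WithBot L) := by
      intro k l h
      simp only [f]
      rw [dif_pos h]
    obtain ⟨p, hp, hpmax⟩ := Finset.exists_max_image (v.support ×ˢ v.support) f
      ⟨(i0, j0), Finset.mem_product.2 ⟨hi0, hj0⟩⟩
    obtain ⟨i, j⟩ := p
    have hpi : i ∈ v.support := (Finset.mem_product.1 hp).1
    have hpj : j ∈ v.support := (Finset.mem_product.1 hp).2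
    have hij : i ≠ j := by
      intro h
      have h1 := hpmax (i0, j0) (Finset.mem_product.2 ⟨hi0, hj0⟩)
      rw [hf i0 j0 hij0] at h1
      have h2 : f (i, j) = ⊥ := by
        simp only [f]
        rw [dif_neg]
        simpa using h
      rw [h2] at h1
      simp at h1
    have hmax : ∀ k ∈ v.support, ∀ l ∈ v.support, ∀ h : k ≠ l, fd k l h ≤ fd i j hij := by
      intro k hk l hl h
      have h1 := hpmax (k, l) (Finset.mem_product.2 ⟨hk, hl⟩)
      rw [hf k l h, hf i j hij] at h1
      exact_mod_cast h1
    cases hfi : i (fd i j hij)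
    · exact beta_anis_aux L v i j hij hpi hpj hmax hfi
    · have hfj : j (fd j i hij.symm) = false := by
        rw [fd_symm i j hij]
        have := fd_ne i j hij
        rw [hfi] at this
        cases h : j (fd i j hij)
        · rfl
        · exact absurd h.symm this
      exact beta_anis_aux L v j i hij.symm hpj hpi (by
        intro k hk l hl h
        rw [fd_symm i j hij]
        exact hmax k hk l hl h) hfj
  · push Not at hex
    obtain ⟨i, hi⟩ := Finsupp.support_nonempty_iff.2 hv
    have hS : v.support = {i} := by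
      ext k
      rw [Finset.mem_singleton]
      exact ⟨fun hk => hex k hk i hi, fun h => h ▸ hi⟩
    intro h0
    have h1 := beta_coord L v none
    rw [h0, hS, Finset.sum_singleton, Finset.sum_singleton] at h1
    unfold cc at h1
    rw [dif_pos rfl] at h1
    simp at h1

end CayInf
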