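import Pool.Agent.Helper579.CayInf.Defs

/-! # A group all of whose Cayley graphs contain `K_{2,κ}` (MP_a61cf6_co) -/

universe u

namespace CayInf



theorem bip_mono {S T S' T' : Type*} (f : S ↪ S') (g : T ↪ T') :
    (completeBipartiteGraph S T).IsContained (completeBipartiteGraph S' T') := by
  refine ⟨⟨⟨Sum.map f g, ?_⟩, ?_⟩⟩
  · intro a b hab
    rcases a with a | a <;> rcases b with b | b <;>
      simp_all [completeBipartiteGraph]
  · exact Sum.map_injective.2 ⟨f.injective, g.injective⟩

end CayInf
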