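import Pool.Agent.Helper579.CayInf.Defs

/-! # A group all of whose Cayley graphs contain `K_{2,κ}` (MP_a61cf6_co) -/

universe u

namespace CayInf



/-- A well-ordered type with more branches than nodes. -/
theorem exists_tree (T : Type u) : ∃ (L : Type u) (_ : LinearOrder L) (_ : WellFoundedLT L),
    max Cardinal.aleph0 (max (Cardinal.mk T) (Cardinal.mk (Option (Node L) →₀ ZMod 2))) <
      Cardinal.mk ((L → Bool) →₀ ZMod 2) := by
  classical
  obtain ⟨μ, hμdef⟩ : ∃ μ : Cardinal.{u}, μ = max Cardinal.aleph0 (Cardinal.mk T) := ⟨_, rfl⟩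
  have hμ : Cardinal.aleph0 ≤ μ := by rw [hμdef]; exact le_max_left _ _
  have hT : Cardinal.mk T ≤ μ := by rw [hμdef]; exact le_max_right _ _
  obtain ⟨c, hcdef⟩ : ∃ c : Cardinal.{u}, c = sInf {c : Cardinal.{u} | μ < 2 ^ c} := ⟨_, rfl⟩
  have hc : μ < 2 ^ c := by
    rw [hcdef]
    exact csInf_mem (s := {c : Cardinal.{u} | μ < 2 ^ c}) ⟨μ, Cardinal.cantor μ⟩
  have hcμ : c ≤ μ := by
    rw [hcdef]
    exact csInf_le' (Cardinal.cantor μ)
  have hlt : ∀ d : Cardinal.{u}, d < c → 2 ^ d ≤ μ := by
    intro d hd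
    by_contra h
    rw [not_le] at h
    have : c ≤ d := by
      rw [hcdef]
      exact csInf_le' h
    exact absurd hd (not_lt.mpr this)
  refine ⟨c.ord.ToType, inferInstance, inferInstance, ?_⟩
  have hNode : Cardinal.mk (Node c.ord.ToType) ≤ μ := by
    unfold Node
    rw [Cardinal.mk_sigma]
    refine (Cardinal.sum_le_sum _ (fun _ => μ) ?_).trans ?_
    · intro x
      have h1 : Cardinal.mk (Set.Iio x → Bool) = 2 ^ Cardinal.mk (Set.Iio x) := by simp
      rw [h1]
      exact hlt _ (Cardinal.mk_Iio_toType_ord_lt x)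
    · rw [Cardinal.sum_const, Cardinal.mk_ord_toType, Cardinal.lift_id, Cardinal.lift_id]
      exact (mul_le_mul' hcμ le_rfl).trans (Cardinal.mul_eq_self hμ).le
  have hOpt : Cardinal.mk (Option (Node c.ord.ToType)) ≤ μ := by
    rw [Cardinal.mk_option]
    exact Cardinal.add_le_of_le hμ hNode (Cardinal.one_le_aleph0.trans hμ)
  have hF : Cardinal.mk (Option (Node c.ord.ToType) →₀ ZMod 2) ≤ μ := by
    rcases finite_or_infinite (Option (Node c.ord.ToType)) with hfin | hinf
    · have hfin' : Finite (Option (Node c.ord.ToType) →₀ ZMod 2) :=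
        Finite.of_injective (fun f : Option (Node c.ord.ToType) →₀ ZMod 2 =>
          (f : Option (Node c.ord.ToType) → ZMod 2)) DFunLike.coe_injective
      exact (Cardinal.lt_aleph0_of_finite _).le.trans hμ
    · rw [Cardinal.mk_finsupp_lift_of_infinite]
      refine max_le ?_ ?_
      · rw [Cardinal.lift_uzero]
        exact hOpt
      · refine le_trans ?_ hμ
        rw [Cardinal.lift_le_aleph0]
        exact Cardinal.mk_le_aleph0
  have hB : 2 ^ c ≤ Cardinal.mk ((c.ord.ToType → Bool) →₀ ZMod 2) := by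
    have h1 : Cardinal.mk (c.ord.ToType → Bool) = 2 ^ c := by simp
    rw [← h1]
    exact Cardinal.mk_le_of_injective
      (Finsupp.single_left_injective (α := c.ord.ToType → Bool) (one_ne_zero (α := ZMod 2)))
  exact lt_of_le_of_lt (max_le hμ (max_le hT hF)) (hc.trans_le hB)

end CayInf
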