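import Pool.Agent.Helper579.CayInf.Defs

/-! # A group all of whose Cayley graphs contain `K_{2,κ}` (MP_a61cf6_co) -/

universe u

namespace CayInf



/-- If `V` is larger than `Z`, `T` and `ℵ₀` then every Cayley graph of the extension contains
`K_{2,T}`. -/
theorem ext_k2 {V Z : Type u} [AddCommGroup V] [AddCommGroup Z] [Module (ZMod 2) V]
    [Module (ZMod 2) Z] (β : V →ₗ[ZMod 2] V →ₗ[ZMod 2] Z) (hβ : ∀ v : V, v ≠ 0 → β v v ≠ 0)
    (T : Type u) [Nonempty T]
    (hcard : max Cardinal.aleph0 (max (Cardinal.mk T) (Cardinal.mk Z)) < Cardinal.mk V)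
    (H : Set (Ext β)) (hH : Subgroup.closure H = ⊤) :
    (completeBipartiteGraph (Fin 2) T).IsContained (cay (Ext β) H) := by
  classical
  set μ : Cardinal := max Cardinal.aleph0 (max (Cardinal.mk T) (Cardinal.mk Z)) with hμ
  have hμ0 : Cardinal.aleph0 ≤ μ := le_max_left _ _
  have hμT : Cardinal.mk T ≤ μ := (le_max_left _ _).trans (le_max_right _ _)
  have hμZ : Cardinal.mk Z ≤ μ := (le_max_right _ _).trans (le_max_right _ _)
  let F : Z → Type u := fun z => {h : Ext β // h ∈ H ∧ h.v ≠ 0 ∧ β h.v h.v = z}
  have claim : ∃ z, Cardinal.mk T ≤ Cardinal.mk (F z) := by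
    by_contra hcon
    push Not at hcon
    let A : Type u := Σ z : Z, F z
    have hA : Cardinal.mk A ≤ μ := by
      rw [show Cardinal.mk A = Cardinal.sum fun z => Cardinal.mk (F z) from Cardinal.mk_sigma F]
      refine (Cardinal.sum_le_sum _ (fun _ => Cardinal.mk T) fun z => (hcon z).le).trans ?_
      rw [Cardinal.sum_const']
      exact Cardinal.mul_le_of_le hμ0 hμZ hμT
    let φ : A → V := fun a => a.2.1.v
    have hspan : Submodule.span (ZMod 2) (Set.range φ) = ⊤ := by
      rw [eq_top_iff]
      intro x _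
      have hx : (⟨x, 0⟩ : Ext β) ∈ Subgroup.closure H := by rw [hH]; trivial
      have hall : ∀ g : Ext β, g ∈ Subgroup.closure H → g.v ∈ Submodule.span (ZMod 2) (Set.range φ) := by
        intro g hg
        induction hg using Subgroup.closure_induction with
        | mem h hh =>
          by_cases hv : h.v = 0
          · rw [hv]; exact Submodule.zero_mem _
          · exact Submodule.subset_span ⟨⟨β h.v h.v, ⟨h, hh, hv, rfl⟩⟩, rfl⟩
        | one => exact Submodule.zero_mem _
        | mul a b _ _ ha hb => exact Submodule.add_mem _ ha hb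
        | inv a _ ha => exact Submodule.neg_mem _ ha
      exact hall _ hx
    have hsurj : Function.Surjective (Finsupp.linearCombination (ZMod 2) φ) := by
      rw [← LinearMap.range_eq_top, Finsupp.range_linearCombination, hspan]
    have h1 : Cardinal.mk V ≤ Cardinal.mk (A →₀ ZMod 2) := Cardinal.mk_le_of_surjective hsurj
    have h2 : Cardinal.mk (A →₀ ZMod 2) ≤ μ := by
      rcases finite_or_infinite A with hf | hi
      · haveI : Finite (A →₀ ZMod 2) :=
          Finite.of_injective (fun f : A →₀ ZMod 2 => (f : A → ZMod 2)) DFunLike.coe_injective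
        exact (Cardinal.lt_aleph0_of_finite _).le.trans hμ0
      · rw [Cardinal.mk_finsupp_lift_of_infinite]
        refine max_le ?_ ?_
        · simpa using hA
        · refine le_trans ?_ hμ0
          have : Cardinal.mk (ZMod 2) < Cardinal.aleph0 := Cardinal.lt_aleph0_of_finite _
          simpa using this.le
    exact absurd (h1.trans h2) (not_le.2 hcard)
  obtain ⟨z, hz⟩ := claim
  obtain ⟨f⟩ := hz
  have hz0 : z ≠ 0 := by
    obtain ⟨t0⟩ := (inferInstance : Nonempty T)
    rw [← (f t0).2.2.2]
    exact hβ _ (f t0).2.2.1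
  let a : Ext β := ⟨0, z⟩
  have ha1 : a ≠ 1 := by
    intro h
    have := congrArg Ext.z h
    exact hz0 this
  have hsq : ∀ t, (f t).1 * (f t).1 = a := by
    intro t
    ext
    · show (f t).1.v + (f t).1.v = 0
      exact ZModModule.add_self _
    · show (f t).1.z + (f t).1.z + β (f t).1.v (f t).1.v = z
      rw [ZModModule.add_self, zero_add]
      exact (f t).2.2.2
  have h1 : ∀ t, (cay (Ext β) H).Adj 1 (f t).1 := by
    intro t
    refine ⟨fun h => (f t).2.2.1 ?_, Or.inl ?_⟩
    · rw [← h]; rfl
    · rw [inv_one, mul_one]; exact (f t).2.1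
  have h2 : ∀ t, (cay (Ext β) H).Adj a (f t).1 := by
    intro t
    refine ⟨fun h => (f t).2.2.1 ?_, Or.inr ?_⟩
    · rw [← h]
    · rw [← hsq t, mul_inv_cancel_right]; exact (f t).2.1
  let g : Fin 2 ⊕ T → Ext β := Sum.elim (fun i => if i = 0 then 1 else a) (fun t => (f t).1)
  have hadj : ∀ (i : Fin 2) (t : T), (cay (Ext β) H).Adj (g (Sum.inl i)) (g (Sum.inr t)) := by
    intro i t
    show (cay (Ext β) H).Adj (if i = 0 then 1 else a) (f t).1
    split_ifs
    · exact h1 t
    · exact h2 t
  refine ⟨⟨⟨g, ?_⟩, ?_⟩⟩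
  · intro x y hxy
    rw [completeBipartiteGraph_adj] at hxy
    rcases x with i | t <;> rcases y with j | t'
    · simp at hxy
    · exact hadj i t'
    · exact (hadj j t).symm
    · simp at hxy
  · intro x y hxy
    rcases x with i | t <;> rcases y with j | t'
    · have hxy' : (if i = 0 then (1 : Ext β) else a) = (if j = 0 then 1 else a) := hxy
      congr 1
      fin_cases i <;> fin_cases j <;> simp at hxy' ⊢
      · exact ha1 hxy'.symm
      · exact ha1 hxy'
    · exact absurd hxy (hadj i t').ne
    · exact absurd hxy (hadj j t).ne'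
    · have hxy' : (f t).1 = (f t').1 := hxy
      rw [f.injective (Subtype.ext hxy')]

end CayInf
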