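import Pool.Agent.Helper579.CayInf.Defs
import Pool.Agent.Helper579.CayInf.P_beta_anis
import Pool.Agent.Helper579.CayInf.P_ext_k2
import Pool.Agent.Helper579.CayInf.P_exists_tree

/-! # A group all of whose Cayley graphs contain `K_{2,κ}` (MP_a61cf6_co) -/

universe u

namespace CayInf



/-- For every nonempty type `T` some group has the property that every Cayley graph contains
`K_{2,T}`. -/
theorem k2_unavoidable (T : Type u) [Nonempty T] : ∃ (G : Type u) (_ : Group G), ∀ H : Set G,
    (1 : G) ∉ H → Subgroup.closure H = ⊤ →
      (completeBipartiteGraph (Fin 2) T).IsContained (cay G H) := by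
  obtain ⟨L, hL1, hL2, hcard⟩ := exists_tree T
  exact ⟨Ext (beta L), inferInstance, fun H _ hH => ext_k2 (beta L) (beta_anis L) T hcard H hH⟩

end CayInf
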