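import Pool.Agent.Helper579.CayInf.Defs

/-! # A group all of whose Cayley graphs contain `K_{2,κ}` (MP_a61cf6_co) -/

universe u

namespace CayInf



theorem k35_lvl {G : Type u} [Group G] [LinearOrder G] (t a : G)
    (ha : a ∈ Subgroup.closure (Set.Iio t)) :
    a = 1 ∨ ∃ m, m < t ∧ a ∈ Subgroup.closure (Set.Iic m) := by
  induction ha using Subgroup.closure_induction with
  | mem x hx => exact Or.inr ⟨x, hx, Subgroup.subset_closure (Set.mem_Iic.2 le_rfl)⟩
  | one => exact Or.inl rfl
  | mul x y hx hy ihx ihy =>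
    rcases ihx with rfl | ⟨m, hm, hxm⟩
    · rw [one_mul]; exact ihy
    · rcases ihy with rfl | ⟨m', hm', hym⟩
      · rw [mul_one]; exact Or.inr ⟨m, hm, hxm⟩
      · refine Or.inr ⟨max m m', max_lt hm hm', ?_⟩
        exact mul_mem
          (Subgroup.closure_mono (Set.Iic_subset_Iic.2 (le_max_left m m')) hxm)
          (Subgroup.closure_mono (Set.Iic_subset_Iic.2 (le_max_right m m')) hym)
  | inv x hx ihx =>
    rcases ihx with rfl | ⟨m, hm, hxm⟩
    · left; simp
    · exact Or.inr ⟨m, hm, inv_mem hxm⟩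

theorem k35_top {G : Type u} [Group G] [LinearOrder G] [WellFoundedLT G] (u : Fin 3 → G)
    (hu : Function.Injective u) :
    ∃ t : G, (∀ i i', u i' * (u i)⁻¹ ∈ Subgroup.closure (Set.Iic t)) ∧
      ∃ a c, u c * (u a)⁻¹ ∉ Subgroup.closure (Set.Iio t) := by
  set T : Set G := {t | ∀ i i', u i' * (u i)⁻¹ ∈ Subgroup.closure (Set.Iic t)} with hT
  have hne : T.Nonempty := by
    obtain ⟨p, hp⟩ := Finite.exists_max (fun p : Fin 3 × Fin 3 => u p.2 * (u p.1)⁻¹)
    refine ⟨u p.2 * (u p.1)⁻¹, fun i i' => Subgroup.subset_closure ?_⟩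
    exact Set.mem_Iic.2 (hp (i, i'))
  obtain ⟨t, htT, hmin⟩ := WellFounded.has_min (wellFounded_lt (α := G)) T hne
  refine ⟨t, htT, ?_⟩
  by_contra hcon
  push Not at hcon
  have h01 : ∃ m, m < t ∧ u 1 * (u 0)⁻¹ ∈ Subgroup.closure (Set.Iic m) := by
    rcases k35_lvl t _ (hcon 0 1) with h | h
    · exfalso
      have : u 1 = u 0 := by
        rw [mul_inv_eq_one] at h
        exact h
      have := hu this
      exact absurd this (by decide)
    · exact h
  have hall : ∀ p : Fin 3 × Fin 3, ∃ m, m < t ∧ u p.2 * (u p.1)⁻¹ ∈ Subgroup.closure (Set.Iic m) := by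
    intro p
    rcases k35_lvl t _ (hcon p.1 p.2) with h | h
    · obtain ⟨m, hm, _⟩ := h01
      exact ⟨m, hm, by rw [h]; exact one_mem _⟩
    · exact h
  choose m hm1 hm2 using hall
  obtain ⟨p0, hp0⟩ := Finite.exists_max m
  refine hmin (m p0) ?_ (hm1 p0)
  intro i i'
  exact Subgroup.closure_mono (Set.Iic_subset_Iic.2 (hp0 (i, i'))) (hm2 (i, i'))

/-- The Cayley graph of this generating set contains no `K_{3,5}`. (The order is any well-order of
the underlying set, unrelated to the group structure.) -/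
theorem no_k35 {G : Type u} [Group G] [LinearOrder G] [WellFoundedLT G] (u : Fin 3 → G)
    (hu : Function.Injective u) (w : Fin 5 → G) (hw : Function.Injective w)
    (hadj : ∀ i j, (cay G {g : G | g ∉ Subgroup.closure (Set.Iio g)}).Adj (u i) (w j)) :
    False := by
  classical
  have hgen : ∀ i j, ∃ g : G, g ∉ Subgroup.closure (Set.Iio g) ∧
      (w j * (u i)⁻¹ = g ∨ w j * (u i)⁻¹ = g⁻¹) := by
    intro i j
    rcases (hadj i j).2 with h | h
    · exact ⟨_, h, Or.inl rfl⟩
    · refine ⟨_, h, Or.inr ?_⟩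
      rw [mul_inv_rev, inv_inv]
  choose g hgH hg using hgen
  obtain ⟨t, ht, a, c, hac⟩ := k35_top u hu
  -- membership of `s i j` in a closure from the size of `g i j`
  have hmemlt : ∀ i j (μ : G), g i j < μ → w j * (u i)⁻¹ ∈ Subgroup.closure (Set.Iio μ) := by
    intro i j μ h
    have h1 : g i j ∈ Subgroup.closure (Set.Iio μ) := Subgroup.subset_closure h
    rcases hg i j with h2 | h2
    · rw [h2]; exact h1
    · rw [h2]; exact inv_mem h1
  have hle : ∀ i j, g i j ≤ t := by
    intro i j
    by_contra hlt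
    push Not at hlt
    obtain ⟨i0, hi0⟩ := Finite.exists_max (fun i => g i j)
    have hμ : t < g i0 j := lt_of_lt_of_le hlt (hi0 i)
    have hsub : Subgroup.closure (Set.Iic t) ≤ Subgroup.closure (Set.Iio (g i0 j)) := by
      apply Subgroup.closure_mono
      intro x hx
      exact lt_of_le_of_lt hx hμ
    have heq : ∀ i', g i' j = g i0 j := by
      intro i'
      by_contra hne
      have hlt' : g i' j < g i0 j := lt_of_le_of_ne (hi0 i') hne
      have h1 := hmemlt i' j _ hlt'
      have h2 := hsub (ht i0 i')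
      have h3 : w j * (u i0)⁻¹ ∈ Subgroup.closure (Set.Iio (g i0 j)) := by
        have : w j * (u i0)⁻¹ = (w j * (u i')⁻¹) * (u i' * (u i0)⁻¹) := by group
        rw [this]
        exact mul_mem h1 h2
      apply hgH i0 j
      rcases hg i0 j with h4 | h4
      · rw [h4] at h3; exact h3
      · rw [h4] at h3; exact inv_mem_iff.1 h3
    have inj : ∀ i i', w j * (u i)⁻¹ = w j * (u i')⁻¹ → i = i' := by
      intro i i' h
      apply hu
      simpa using h
    have h0 := hg 0 j
    have h1 := hg 1 j
    have h2 := hg 2 j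
    rw [heq 0] at h0
    rw [heq 1] at h1
    rw [heq 2] at h2
    rcases h0 with h0 | h0 <;> rcases h1 with h1 | h1 <;> rcases h2 with h2 | h2 <;>
    first
      | exact absurd (inj 0 1 (h0.trans h1.symm)) (by decide)
      | exact absurd (inj 0 2 (h0.trans h2.symm)) (by decide)
      | exact absurd (inj 1 2 (h1.trans h2.symm)) (by decide)
  have hw4 : ∀ j, w j ∈ ({t * u c, t⁻¹ * u c, t * u a, t⁻¹ * u a} : Finset G) := by
    intro j
    have hor : g a j = t ∨ g c j = t := by
      by_contra hno
      push Not at hno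
      have h1 := hmemlt a j t (lt_of_le_of_ne (hle a j) hno.1)
      have h2 := hmemlt c j t (lt_of_le_of_ne (hle c j) hno.2)
      apply hac
      have : u c * (u a)⁻¹ = (w j * (u c)⁻¹)⁻¹ * (w j * (u a)⁻¹) := by group
      rw [this]
      exact mul_mem (inv_mem h2) h1
    simp only [Finset.mem_insert, Finset.mem_singleton]
    rcases hor with h | h
    · rcases hg a j with h1 | h1
      · rw [h, mul_inv_eq_iff_eq_mul] at h1
        exact Or.inr (Or.inr (Or.inl h1))
      · rw [h, mul_inv_eq_iff_eq_mul] at h1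
        exact Or.inr (Or.inr (Or.inr h1))
    · rcases hg c j with h1 | h1
      · rw [h, mul_inv_eq_iff_eq_mul] at h1
        exact Or.inl h1
      · rw [h, mul_inv_eq_iff_eq_mul] at h1
        exact Or.inr (Or.inl h1)
  have hcard : (Finset.univ.image w).card ≤ 4 := by
    refine le_trans (Finset.card_le_card ?_) (Finset.card_le_four (a := t * u c) (b := t⁻¹ * u c)
      (c := t * u a) (d := t⁻¹ * u a))
    intro x hx
    obtain ⟨j, _, rfl⟩ := Finset.mem_image.1 hx
    exact hw4 j
  rw [Finset.card_image_of_injective _ hw] at hcard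
  simp at hcard

end CayInf
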