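import Pool.Agent.Helper579.CayInf.Defs

/-! # A group all of whose Cayley graphs contain `K_{2,κ}` (MP_a61cf6_co) -/

universe u

namespace CayInf



/-- The elements not generated by smaller ones (in a well-order of the group) generate the group. -/
theorem wo_gen {G : Type u} [Group G] [LinearOrder G] [WellFoundedLT G] :
    Subgroup.closure {g : G | g ∉ Subgroup.closure (Set.Iio g)} = ⊤ := by
  rw [Subgroup.eq_top_iff']
  intro g
  induction g using WellFoundedLT.induction with
  | ind g ih =>
    by_cases h : g ∈ Subgroup.closure (Set.Iio g)
    · have hle : Subgroup.closure (Set.Iio g) ≤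
          Subgroup.closure {g : G | g ∉ Subgroup.closure (Set.Iio g)} := by
        rw [Subgroup.closure_le]
        intro x hx
        exact ih x hx
      exact hle h
    · exact Subgroup.subset_closure h

end CayInf
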