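import Pool.Agent.Helper579.CayInf.Defs
import Pool.Agent.Helper579.CayInf.P_k2_unavoidable
import Pool.Agent.Helper579.CayInf.P_wo_gen
import Pool.Agent.Helper579.CayInf.P_no_k35
import Pool.Agent.Helper579.CayInf.P_q8u
import Pool.Agent.Helper579.CayInf.P_bip_mono

/-! # A group all of whose Cayley graphs contain `K_{2,κ}` (MP_a61cf6_co) -/

universe u

namespace CayInf



theorem classification_emb (S : Type u) (n : ℕ) (h : Cardinal.mk S < ((n + 1 : ℕ) : Cardinal.{u})) :
    Nonempty (S ↪ Fin n) := by
  have hfin : Finite S := Cardinal.lt_aleph0_iff_finite.1 (h.trans (Cardinal.natCast_lt_aleph0))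
  haveI := Fintype.ofFinite S
  rw [Cardinal.mk_fintype, Nat.cast_lt] at h
  apply Function.Embedding.nonempty_of_card_le
  rw [Fintype.card_fin]
  omega

theorem classification_emb' (S : Type u) (n : ℕ) (h : ((n : ℕ) : Cardinal.{u}) ≤ Cardinal.mk S) :
    Nonempty (Fin n ↪ S) := by
  apply Cardinal.lift_mk_le'.1
  rw [Cardinal.mk_fin, Cardinal.lift_natCast]
  simpa using h

/-- Classification of the avoidable complete bipartite graphs. -/
theorem classification (S T : Type u) [Nonempty S] (hST : Cardinal.mk S ≤ Cardinal.mk T) :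
    (∀ (G : Type u) [Group G], ∃ H : Set G, (1 : G) ∉ H ∧ Subgroup.closure H = ⊤ ∧
      ¬ (completeBipartiteGraph S T).IsContained (cay G H)) ↔
    (3 ≤ Cardinal.mk S ∧ 5 ≤ Cardinal.mk T) := by
  have hT : Nonempty T := by
    obtain ⟨f⟩ := Cardinal.le_def S T |>.1 hST
    exact ⟨f (Classical.arbitrary S)⟩
  constructor
  · intro hall
    by_contra hcon
    rw [not_and_or, not_le, not_le] at hcon
    rcases hcon with h3 | h5
    · obtain ⟨f⟩ := classification_emb S 2 (by exact_mod_cast h3)
      obtain ⟨G, hG, hK⟩ := k2_unavoidable T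
      obtain ⟨H, h1, h2, h4⟩ := @hall G hG
      exact h4 ((bip_mono f (Function.Embedding.refl T)).trans (hK H h1 h2))
    · obtain ⟨g⟩ := classification_emb T 4 (by exact_mod_cast h5)
      obtain ⟨f⟩ := classification_emb S 4 (by exact_mod_cast hST.trans_lt h5)
      obtain ⟨G, hG, hK⟩ := q8u.{u}
      obtain ⟨H, h1, h2, h4⟩ := @hall G hG
      exact h4 ((bip_mono f g).trans (hK H h1 h2))
  · rintro ⟨h3, h5⟩ G _
    obtain ⟨e3⟩ := classification_emb' S 3 (by exact_mod_cast h3)
    obtain ⟨e5⟩ := classification_emb' T 5 (by exact_mod_cast h5)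
    obtain ⟨_, _⟩ := exists_wellOrder G
    refine ⟨{g : G | g ∉ Subgroup.closure (Set.Iio g)}, ?_, wo_gen, ?_⟩
    · intro h
      exact h (one_mem _)
    · rintro ⟨f⟩
      refine no_k35 (fun i => f (Sum.inl (e3 i))) ?_ (fun j => f (Sum.inr (e5 j))) ?_ ?_
      · intro a b hab
        exact e3.injective (Sum.inl_injective (f.injective hab))
      · intro a b hab
        exact e5.injective (Sum.inr_injective (f.injective hab))
      · intro a b
        exact f.toHom.map_adj (by simp)

end CayInf
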